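import Pool.Agent.helper88.T8.Spec

set_option autoImplicit false

/-!
# Row RN8 of T8 (MP_16912e_nt): the sum over the discriminants
-/

namespace Pool.Agent.T8

open Finset NumberField Pool.Agent.helper3.FT Pool.Agent.helper47.RA Pool.Agent.T5 Pool.Agent.T6 Pool.Agent.T7
open scoped nonZeroDivisors

/-- the conditions of RC8 -/
def RN8_P (κ N Y : ℝ) (x : ℤ × ℕ × ℕ × ℤ × ℤ) : Prop :=
  N / 2 < -(x.1 : ℝ) ∧ -(x.1 : ℝ) ≤ N ∧ 1 ≤ x.2.1 ∧ 1 ≤ x.2.2.1 ∧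
    (x.2.1 : ℝ) * x.2.2.1 ≤ Y ∧ κ * √Y ≤ x.2.1 ∧ x.2.2.2.2 ≠ 0 ∧ IsCoprime x.2.2.2.2 ((x.2.1 : ℤ) * x.2.2.1) ∧
    (x.2.1 : ℤ) * (4 * (x.2.2.1 : ℤ) ^ 5) = (x.2.1 : ℤ) ^ 2 * x.2.2.2.1 ^ 2 - x.1 * x.2.2.2.2 ^ 2

theorem RN8_fin (K : Type) [Field K] [NumberField K] (κ Y : ℝ) : (RI8 K κ Y).Finite := by
  refine (Ideal.finite_setOfPred_absNorm_le (S := 𝓞 K) ⌊Y⌋₊).subset (fun a ha => ?_)
  exact Nat.le_floor ha.2.2.2.2.2.1

theorem RN8 (hRA8 : RA8_stmt) (hRC8 : RC8_stmt) : RN8_stmt := by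
  classical
  intro κ A hκ0 hκ1 hA
  obtain ⟨C, hC, H⟩ := hRC8 κ A hκ0 hκ1 hA
  refine ⟨C, hC, fun N Y hN hY hYA => ?_⟩
  have hsel : ∀ D : ℤ, ∃ G : Finset (ℕ × ℕ × ℤ × ℤ), D ∈ DN N →
      (SF (fR8 κ Y) D = (G.card : ℝ) ∧ ∀ x ∈ G, RN8_P κ N Y (D, x)) := by
    intro D
    by_cases hD : D ∈ DN N
    swap
    · exact ⟨∅, fun h => absurd h hD⟩
    obtain ⟨E, hE1, -, -, hEQ, hD0, hF, hl, hu⟩ := ZL_fld N D hD
    have hD4 : E.Q.D < -4 := by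
      rw [hEQ]
      have h1 : (D : ℝ) < ((-4 : ℤ) : ℝ) := by push_cast; linarith
      exact_mod_cast h1
    obtain ⟨f, hf, hfa⟩ := hRA8 E.K E.Q E.fin hD4 κ Y hκ0 hY
    have hfin := RN8_fin E.K κ Y
    refine ⟨hfin.toFinset.image f, fun _ => ⟨?_, ?_⟩⟩
    · rw [hE1, fR8, Finset.card_image_of_injOn (by rw [Set.Finite.coe_toFinset]; exact hf), Set.ncard_eq_toFinset_card _ hfin]
    · intro x hx
      obtain ⟨a, ha, rfl⟩ := Finset.mem_image.1 hx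
      rw [Set.Finite.mem_toFinset] at ha
      obtain ⟨h1, h2, h3, h4, h5, h6, h7⟩ := hfa a ha
      refine ⟨hl, hu, h1, h2, ?_, h4, h5, h6, ?_⟩
      · have h8 : (((f a).1 * (f a).2.1 : ℕ) : ℝ) = (Ideal.absNorm a : ℝ) := by rw [h3]
        push_cast at h8
        show ((f a).1 : ℝ) * (f a).2.1 ≤ Y
        rw [h8]
        exact ha.2.2.2.2.2.1
      · rw [hEQ] at h7
        exact h7
  choose G hG using hsel
  have hcard : TD7 (fR8 κ Y) N = (((DN N).biUnion (fun D => (G D).image (fun x => (D, x)))).card : ℝ) := by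
    rw [Finset.card_biUnion]
    · rw [TD7]
      push_cast
      refine Finset.sum_congr rfl (fun D hD => ?_)
      rw [(hG D hD).1, Finset.card_image_of_injective _ (fun x y h => (Prod.mk.inj h).2)]
    · intro D _ D' _ hne
      rw [Function.onFun, Finset.disjoint_left]
      rintro x hx hx'
      obtain ⟨y, _, rfl⟩ := Finset.mem_image.1 hx
      obtain ⟨y', _, h⟩ := Finset.mem_image.1 hx'
      exact hne (Prod.mk.inj h).1.symm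
  rw [hcard]
  refine H N Y (by linarith) hY hYA _ (fun x hx => ?_)
  obtain ⟨D, hD, hx⟩ := Finset.mem_biUnion.1 hx
  obtain ⟨y, hy, rfl⟩ := Finset.mem_image.1 hx
  exact (hG D hD).2 y hy

end Pool.Agent.T8
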